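import Pool.Agent.H5.FR.Stmts

/-!
# Project FRK, module CIR: the multilinear weakly skew circuit
-/

set_option autoImplicit false

open Finset

namespace Pool.Agent.H5.FR

open Pool.Agent.H80 MvPolynomial

namespace Cir

/-! ### Pruning keeps syntactic multilinearity -/

section prune

variable {K : Type} {σ : Type}

/-- syntactic multilinearity of a pre-circuit -/
def PSyn (D : Pre K σ) : Prop :=
  ∀ g a b : D.V, D.gate g = Gate.mul a b → ∀ (i : σ) (s t : D.V), D.gate s = Gate.var i →
    D.gate t = Gate.var i → D.Path s a → ¬ D.Path t b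

theorem restrictGate_var {V : Type} (P : V → Prop) (g : Gate K σ V)
    (h : ∀ (j : Fin 2) (t : V), g.tail j = some t → P t) (i : σ)
    (hm : Pre.restrictGate P g h = Gate.var i) : g = Gate.var i := by
  cases g with
  | var i' =>
    simp only [Pre.restrictGate, Gate.var.injEq] at hm
    rw [hm]
  | const c => simp [Pre.restrictGate] at hm
  | add a b => simp [Pre.restrictGate] at hm
  | mul a b => simp [Pre.restrictGate] at hm

theorem prune_syn (D : Pre K σ) (o : D.V) (h : PSyn D) : SynMult (D.prune o) := by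
  intro g a b hg i s t hs ht hsa htb
  have hg' : D.gate g.1 = Gate.mul a.1 b.1 := Pre.restrictGate_mul _ _ _ _ _ hg
  have hs' : D.gate s.1 = Gate.var i := restrictGate_var _ _ _ _ hs
  have ht' : D.gate t.1 = Gate.var i := restrictGate_var _ _ _ _ ht
  exact h g.1 a.1 b.1 hg' i s.1 t.1 hs' ht' ((Pre.prune_path D o s a).1 hsa)
    ((Pre.prune_path D o t b).1 htb)

end prune

/-! ### The circuit -/

/-- the nodes -/
inductive Nd (m : ℕ) (S : Type) : Type
  | a (X : S) (p : Fin m × Fin m) : Nd m S
  | b (X : S) (p : Fin m × Fin m) : Nd m S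
  | c (X : S) (p : Fin m × Fin m) : Nd m S
  | d (X : S) (p : Fin m × Fin m) : Nd m S
  | e (X : S) (p : Fin m × Fin m) : Nd m S
  | f (X : S) (p : Fin m × Fin m) : Nd m S
  | acc (X : S) (t : Fin (m * m + 1)) : Nd m S

/-- code of the nodes -/
def code {m : ℕ} {S : Type} : Nd m S → (S × ((Fin 6 × (Fin m × Fin m)) ⊕ Fin (m * m + 1)))
  | Nd.a X p => (X, Sum.inl (0, p))
  | Nd.b X p => (X, Sum.inl (1, p))
  | Nd.c X p => (X, Sum.inl (2, p))
  | Nd.d X p => (X, Sum.inl (3, p))
  | Nd.e X p => (X, Sum.inl (4, p))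
  | Nd.f X p => (X, Sum.inl (5, p))
  | Nd.acc X t => (X, Sum.inr t)

theorem code_inj {m : ℕ} {S : Type} : Function.Injective (code (m := m) (S := S)) := by
  intro x y h
  cases x <;> cases y <;> simp_all [code]

noncomputable instance ndFin {m : ℕ} {S : Type} [Fintype S] : Fintype (Nd m S) :=
  Fintype.ofInjective code code_inj

theorem card_nd {m : ℕ} {S : Type} [Fintype S] :
    Fintype.card (Nd m S) ≤ Fintype.card S * (6 * (m * m) + (m * m + 1)) := by
  refine (Fintype.card_le_of_injective code code_inj).trans ?_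
  simp [Fintype.card_prod, Fintype.card_sum]

section circ

variable {K : Type} [Field K] {m : ℕ} (F : Finset (Finset (Fin m)))
  (w : Finset (Fin m) → Fin m → Fin m → K)

/-- the blocks of the circuit -/
abbrev Bl : Type := {X : Finset (Fin m) // X ∈ insert univ F}

/-- the pairs which occur in the sum -/
def Al (X : Finset (Fin m)) (p : Fin m × Fin m) : Prop :=
  p ∈ (X ×ˢ X).filter (fun p => p.1 ≠ p.2 ∧ (X.erase p.1).erase p.2 ∈ F)

instance (X : Finset (Fin m)) (p : Fin m × Fin m) : Decidable (Al F X p) := by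
  unfold Al
  infer_instance

theorem al_iff {X : Finset (Fin m)} {p : Fin m × Fin m} : Al F X p ↔
    (p.1 ∈ X ∧ p.2 ∈ X) ∧ p.1 ≠ p.2 ∧ (X.erase p.1).erase p.2 ∈ F := by
  unfold Al
  rw [mem_filter, mem_product]

/-- enumeration of the pairs -/
def en (s : Fin (m * m)) : Fin m × Fin m := finProdFinEquiv.symm s

/-- the gates -/
noncomputable def gt : Nd m (Bl F) → Gate K (Fin m) (Nd m (Bl F))
  | Nd.a _ p => Gate.var p.1
  | Nd.b _ p => Gate.var p.2
  | Nd.c X p => Gate.add (Nd.a X p) (Nd.b X p)
  | Nd.d X p => Gate.const (w X.1 p.1 p.2)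
  | Nd.e X p => Gate.mul (Nd.d X p) (Nd.c X p)
  | Nd.f X p => if h : Al F X.1 p then
      Gate.mul (Nd.e X p) (Nd.acc ⟨(X.1.erase p.1).erase p.2,
        mem_insert_of_mem ((al_iff F).1 h).2.2⟩ (Fin.last (m * m)))
      else Gate.const 0
  | Nd.acc X t => Fin.cases (Gate.const (if X.1 = ∅ then 1 else 0))
      (fun s => Gate.add (Nd.acc X s.castSucc) (Nd.f X (en s))) t

/-- the rank -/
def rk : Nd m (Bl F) → ℕ
  | Nd.a X _ => X.1.card * (m * m + 8) + 0
  | Nd.b X _ => X.1.card * (m * m + 8) + 1
  | Nd.c X _ => X.1.card * (m * m + 8) + 2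
  | Nd.d X _ => X.1.card * (m * m + 8) + 3
  | Nd.e X _ => X.1.card * (m * m + 8) + 4
  | Nd.f X _ => X.1.card * (m * m + 8) + 5
  | Nd.acc X t => X.1.card * (m * m + 8) + 6 + t.1

theorem tail_add {V : Type} {x y : V} {j : Fin 2} {t : V}
    (h : (Gate.add x y : Gate K (Fin m) V).tail j = some t) :
    (j = 0 ∧ t = x) ∨ (j = 1 ∧ t = y) := by
  simp only [Gate.tail, Option.some.injEq] at h
  by_cases hj : j = 0
  · rw [if_pos hj] at h
    exact Or.inl ⟨hj, h.symm⟩
  · rw [if_neg hj] at h
    refine Or.inr ⟨?_, h.symm⟩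
    omega

theorem tail_mul {V : Type} {x y : V} {j : Fin 2} {t : V}
    (h : (Gate.mul x y : Gate K (Fin m) V).tail j = some t) :
    (j = 0 ∧ t = x) ∨ (j = 1 ∧ t = y) := by
  simp only [Gate.tail, Option.some.injEq] at h
  by_cases hj : j = 0
  · rw [if_pos hj] at h
    exact Or.inl ⟨hj, h.symm⟩
  · rw [if_neg hj] at h
    refine Or.inr ⟨?_, h.symm⟩
    omega

theorem tail_var {V : Type} {i : Fin m} {j : Fin 2} {t : V}
    (h : (Gate.var i : Gate K (Fin m) V).tail j = some t) : False := by
  simp [Gate.tail] at h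

theorem tail_const {V : Type} {c : K} {j : Fin 2} {t : V}
    (h : (Gate.const c : Gate K (Fin m) V).tail j = some t) : False := by
  simp [Gate.tail] at h

/-- the edges -/
inductive Ed : Nd m (Bl F) → Fin 2 → Nd m (Bl F) → Prop
  | ca (X p) : Ed (Nd.a X p) 0 (Nd.c X p)
  | cb (X p) : Ed (Nd.b X p) 1 (Nd.c X p)
  | ed (X p) : Ed (Nd.d X p) 0 (Nd.e X p)
  | ec (X p) : Ed (Nd.c X p) 1 (Nd.e X p)
  | fe (X p) (h : Al F X.1 p) : Ed (Nd.e X p) 0 (Nd.f X p)
  | fa (X p) (Y : Bl F) (h : Al F X.1 p) (hY : Y.1 = (X.1.erase p.1).erase p.2) :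
      Ed (Nd.acc Y (Fin.last (m * m))) 1 (Nd.f X p)
  | aa (X) (s : Fin (m * m)) : Ed (Nd.acc X s.castSucc) 0 (Nd.acc X s.succ)
  | af (X) (s : Fin (m * m)) : Ed (Nd.f X (en s)) 1 (Nd.acc X s.succ)

theorem ed_of {v : Nd m (Bl F)} {j : Fin 2} {t : Nd m (Bl F)} (h : (gt F w v).tail j = some t) :
    Ed F t j v := by
  cases v with
  | a X p => exact (tail_var h).elim
  | b X p => exact (tail_var h).elim
  | c X p =>
    rcases tail_add h with ⟨rfl, rfl⟩ | ⟨rfl, rfl⟩
    · exact Ed.ca X p
    · exact Ed.cb X p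
  | d X p => exact (tail_const h).elim
  | e X p =>
    rcases tail_mul h with ⟨rfl, rfl⟩ | ⟨rfl, rfl⟩
    · exact Ed.ed X p
    · exact Ed.ec X p
  | f X p =>
    by_cases ha : Al F X.1 p
    · rw [gt, dif_pos ha] at h
      rcases tail_mul h with ⟨rfl, rfl⟩ | ⟨rfl, rfl⟩
      · exact Ed.fe X p ha
      · exact Ed.fa X p _ ha rfl
    · rw [gt, dif_neg ha] at h
      exact (tail_const h).elim
  | acc X t' =>
    rw [gt] at h
    induction t' using Fin.cases with
    | zero =>
      rw [Fin.cases_zero] at h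
      exact (tail_const h).elim
    | succ s =>
      rw [Fin.cases_succ] at h
      rcases tail_add h with ⟨rfl, rfl⟩ | ⟨rfl, rfl⟩
      · exact Ed.aa X s
      · exact Ed.af X s

theorem card_lt {X : Finset (Fin m)} {p : Fin m × Fin m} (h : Al F X p) :
    ((X.erase p.1).erase p.2).card + 2 = X.card := by
  obtain ⟨⟨h1, h2⟩, h3, _⟩ := (al_iff F).1 h
  have h4 : p.2 ∈ X.erase p.1 := mem_erase.2 ⟨Ne.symm h3, h2⟩
  have h5 := card_erase_add_one h4
  have h6 := card_erase_add_one h1
  omega

theorem rk_lt {s t : Nd m (Bl F)} {j : Fin 2} (h : Ed F s j t) : rk F s < rk F t := by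
  cases h with
  | ca X p => simp only [rk]; omega
  | cb X p => simp only [rk]; omega
  | ed X p => simp only [rk]; omega
  | ec X p => simp only [rk]; omega
  | fe X p h => simp only [rk]; omega
  | fa X p Y h hY =>
    simp only [rk, Fin.val_last]
    have h1 := card_lt F h
    rw [hY]
    have h2 : X.1.card * (m * m + 8) =
        ((X.1.erase p.1).erase p.2).card * (m * m + 8) + 2 * (m * m + 8) := by
      rw [← h1]
      ring
    omega
  | aa X s => simp only [rk, Fin.val_castSucc, Fin.val_succ]; omega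
  | af X s => simp only [rk, Fin.val_succ]; omega

/-- the pre-circuit -/
noncomputable def pc : Pre K (Fin m) where
  V := Nd m (Bl F)
  fin := inferInstance
  gate := gt F w
  acyclic := ⟨rk F, fun _ _ _ h => rk_lt F (ed_of F w h)⟩

/-- the terms -/
noncomputable def term (X : Finset (Fin m)) (p : Fin m × Fin m) : MvPolynomial (Fin m) K :=
  if Al F X p then
    C (w X p.1 p.2) * (MvPolynomial.X p.1 + MvPolynomial.X p.2) *
      PP F w (((X.erase p.1).erase p.2).card / 2) ((X.erase p.1).erase p.2) else 0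

/-- the values -/
noncomputable def vl : Nd m (Bl F) → MvPolynomial (Fin m) K
  | Nd.a _ p => MvPolynomial.X p.1
  | Nd.b _ p => MvPolynomial.X p.2
  | Nd.c _ p => MvPolynomial.X p.1 + MvPolynomial.X p.2
  | Nd.d X p => C (w X.1 p.1 p.2)
  | Nd.e X p => C (w X.1 p.1 p.2) * (MvPolynomial.X p.1 + MvPolynomial.X p.2)
  | Nd.f X p => term F w X.1 p
  | Nd.acc X t => (if X.1 = ∅ then 1 else 0) +
      ∑ s : Fin (m * m), if s.1 < t.1 then term F w X.1 (en s) else 0

theorem acc_last (X : Finset (Fin m)) : (if X = ∅ then 1 else 0 : MvPolynomial (Fin m) K) +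
    ∑ s : Fin (m * m), term F w X (en s) = PP F w (X.card / 2) X := by
  have h1 : ∑ s : Fin (m * m), term F w X (en s) = ∑ p : Fin m × Fin m, term F w X p :=
    Equiv.sum_comp finProdFinEquiv.symm (fun p => term F w X p)
  rw [h1]
  rcases Nat.lt_or_ge X.card 2 with h2 | h2
  · have h3 : X.card / 2 = 0 := by omega
    rw [h3, PP]
    have h4 : ∀ p : Fin m × Fin m, term F w X p = 0 := by
      intro p
      rw [term, if_neg]
      intro h
      have := card_lt F h
      omega
    rw [Finset.sum_eq_zero fun p _ => h4 p, add_zero]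
  · obtain ⟨j, hj⟩ : ∃ j, X.card / 2 = j + 1 := ⟨X.card / 2 - 1, by omega⟩
    have hne : X ≠ ∅ := by
      rintro rfl
      simp at h2
    rw [hj, PP, if_neg hne, zero_add, Finset.sum_filter, ← Finset.sum_filter_add_sum_filter_not
      (univ : Finset (Fin m × Fin m)) (fun p => p ∈ X ×ˢ X)]
    have h5 : ∑ p ∈ (univ : Finset (Fin m × Fin m)).filter (fun p => ¬ p ∈ X ×ˢ X),
        term F w X p = 0 := by
      refine Finset.sum_eq_zero fun p hp => ?_
      rw [mem_filter] at hp
      rw [term, if_neg]
      intro h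
      exact hp.2 (mem_filter.1 h).1
    rw [h5, add_zero]
    have h6 : (univ : Finset (Fin m × Fin m)).filter (fun p => p ∈ X ×ˢ X) = X ×ˢ X := by
      ext p
      simp
    rw [h6]
    refine Finset.sum_congr rfl fun p hp => ?_
    rw [term]
    by_cases ha : Al F X p
    · rw [if_pos ha, if_pos (mem_filter.1 ha).2]
      have := card_lt F ha
      have h7 : ((X.erase p.1).erase p.2).card / 2 = j := by omega
      rw [h7]
    · rw [if_neg ha, if_neg]
      intro h
      exact ha (mem_filter.2 ⟨hp, h⟩)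

theorem isVal : (pc F w).IsVal (vl F w) := by
  intro v
  change vl F w v = (gt F w v).value (vl F w)
  cases v with
  | a X p => rfl
  | b X p => rfl
  | c X p => rfl
  | d X p => rfl
  | e X p => rfl
  | f X p =>
    rw [gt]
    by_cases ha : Al F X.1 p
    · rw [dif_pos ha]
      simp only [vl, Gate.value]
      have h1 : ∑ s : Fin (m * m), (if s.1 < (Fin.last (m * m)).1 then
          term F w ((X.1.erase p.1).erase p.2) (en s) else 0) =
          ∑ s : Fin (m * m), term F w ((X.1.erase p.1).erase p.2) (en s) := by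
        refine Finset.sum_congr rfl fun s _ => ?_
        rw [if_pos]
        rw [Fin.val_last]
        exact s.2
      rw [h1, acc_last, term, if_pos ha]
    · rw [dif_neg ha]
      simp only [vl, Gate.value, term, if_neg ha, C_0]
  | acc X t =>
    rw [gt]
    induction t using Fin.cases with
    | zero =>
      rw [Fin.cases_zero]
      simp only [vl, Gate.value]
      have h1 : ∑ s : Fin (m * m), (if s.1 < (0 : Fin (m * m + 1)).1 then
          term F w X.1 (en s) else 0) = 0 := by
        refine Finset.sum_eq_zero fun s _ => ?_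
        rw [if_neg]
        simp
      rw [h1, add_zero]
      split_ifs <;> simp
    | succ t =>
      rw [Fin.cases_succ]
      simp only [vl, Gate.value, Fin.val_succ, Fin.val_castSucc]
      rw [add_assoc]
      congr 1
      have h1 : term F w X.1 (en t) = ∑ s : Fin (m * m), if s = t then term F w X.1 (en s) else 0 := by
        simp
      rw [h1, ← Finset.sum_add_distrib]
      refine Finset.sum_congr rfl fun s _ => ?_
      rcases lt_trichotomy s.1 t.1 with h | h | h
      · rw [if_pos (by omega), if_pos h, if_neg (fun hs => by rw [hs] at h; omega), add_zero]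
      · rw [if_pos (by omega), if_neg (by omega), if_pos (Fin.ext h), zero_add]
      · rw [if_neg (by omega), if_neg (by omega), if_neg (fun hs => by rw [hs] at h; omega), add_zero]

/-- the variables below a node -/
def vs : Nd m (Bl F) → Finset (Fin m)
  | Nd.a _ p => {p.1}
  | Nd.b _ p => {p.2}
  | Nd.c _ p => {p.1, p.2}
  | Nd.d _ _ => ∅
  | Nd.e _ p => {p.1, p.2}
  | Nd.f X _ => X.1
  | Nd.acc X _ => X.1

theorem vs_sub {s t : Nd m (Bl F)} {j : Fin 2} (h : Ed F s j t) : vs F s ⊆ vs F t := by
  cases h with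
  | ca X p => simp [vs]
  | cb X p => simp [vs]
  | ed X p => simp [vs]
  | ec X p => simp [vs]
  | fe X p h =>
    have h1 := (al_iff F).1 h
    intro x hx
    simp only [vs, mem_insert, mem_singleton] at hx ⊢
    rcases hx with rfl | rfl
    · exact h1.1.1
    · exact h1.1.2
  | fa X p Y h hY =>
    simp only [vs, hY]
    exact (erase_subset _ _).trans (erase_subset _ _)
  | aa X s => simp [vs]
  | af X s => simp [vs]

theorem vs_path {s t : Nd m (Bl F)} (h : (pc F w).Path s t) : vs F s ⊆ vs F t := by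
  induction h with
  | refl => exact Subset.refl _
  | tail _ h2 ih =>
    obtain ⟨j, hj⟩ := h2
    exact ih.trans (vs_sub F (ed_of F w hj))

/-- the nodes below the inner product node -/
def low (X : Bl F) (p : Fin m × Fin m) (s : Nd m (Bl F)) : Prop :=
  s = Nd.a X p ∨ s = Nd.b X p ∨ s = Nd.c X p ∨ s = Nd.d X p ∨ s = Nd.e X p

theorem low_step {X : Bl F} {p : Fin m × Fin m} {s t : Nd m (Bl F)} {j : Fin 2}
    (h : Ed F s j t) (ht : low F X p t) : low F X p s := by
  unfold low at ht ⊢
  cases h with
  | ca X' p' => simp_all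
  | cb X' p' => simp_all
  | ed X' p' => simp_all
  | ec X' p' => simp_all
  | fe X' p' h => simp_all
  | fa X' p' Y h hY => simp_all
  | aa X' s => simp_all
  | af X' s => simp_all

theorem low_path {X : Bl F} {p : Fin m × Fin m} {s t : Nd m (Bl F)}
    (h : (pc F w).Path s t) (ht : low F X p t) : low F X p s := by
  induction h using Relation.ReflTransGen.head_induction_on with
  | refl => exact ht
  | head h1 _ ih =>
    obtain ⟨j, hj⟩ := h1
    exact low_step F (ed_of F w hj) ih

theorem path_d {X : Bl F} {p : Fin m × Fin m} {s : Nd m (Bl F)}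
    (h : (pc F w).Path s (Nd.d X p)) : s = Nd.d X p := by
  rcases Relation.ReflTransGen.cases_tail h with h1 | ⟨c, _, h2⟩
  · exact h1.symm
  · obtain ⟨j, hj⟩ := h2
    have h3 : Ed F c j (Nd.d X p) := ed_of F w hj
    cases h3

theorem edge_path {s t : Nd m (Bl F)} {j : Fin 2} (h : (gt F w t).tail j = some s) :
    (pc F w).Path s t := Relation.ReflTransGen.single ⟨j, h⟩

theorem path_ce (X : Bl F) (p : Fin m × Fin m) : (pc F w).Path (Nd.c X p) (Nd.e X p) :=
  edge_path F w (j := 1) rfl

/-- the multiplication gates -/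
theorem mul_cases {g a b : Nd m (Bl F)} (h : gt F w g = Gate.mul a b) :
    (∃ X p, g = Nd.e X p ∧ a = Nd.d X p ∧ b = Nd.c X p) ∨
    (∃ (X : Bl F) (p : Fin m × Fin m) (Y : Bl F), Al F X.1 p ∧
      Y.1 = (X.1.erase p.1).erase p.2 ∧ g = Nd.f X p ∧
      a = Nd.e X p ∧ b = Nd.acc Y (Fin.last (m * m))) := by
  cases g with
  | a X p => simp [gt] at h
  | b X p => simp [gt] at h
  | c X p => simp [gt] at h
  | d X p => simp [gt] at h
  | e X p =>
    simp only [gt, Gate.mul.injEq] at h
    exact Or.inl ⟨X, p, rfl, h.1.symm, h.2.symm⟩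
  | f X p =>
    rw [gt] at h
    by_cases ha : Al F X.1 p
    · rw [dif_pos ha] at h
      simp only [Gate.mul.injEq] at h
      exact Or.inr ⟨X, p, _, ha, rfl, rfl, h.1.symm, h.2.symm⟩
    · rw [dif_neg ha] at h
      simp at h
  | acc X t =>
    rw [gt] at h
    induction t using Fin.cases with
    | zero =>
      rw [Fin.cases_zero] at h
      simp at h
    | succ s =>
      rw [Fin.cases_succ] at h
      simp at h

theorem weaklySkew : (pc F w).WeaklySkew := by
  intro g a b hg
  rcases mul_cases F w hg with ⟨X, p, rfl, rfl, rfl⟩ | ⟨X, p, Y, ha, hY, rfl, rfl, rfl⟩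
  · refine ⟨0, Nd.d X p, rfl, ?_⟩
    intro v k s hs hst _
    have h1 := path_d F w hst
    subst h1
    have h2 := ed_of F w hs
    cases h2
    exact ⟨rfl, rfl⟩
  · refine ⟨0, Nd.e X p, ?_, ?_⟩
    · have hg' : (pc F w).gate (Nd.f X p) = Gate.mul (Nd.e X p) (Nd.acc Y (Fin.last (m * m))) := hg
      rw [hg']
      rfl
    · intro v k s hs hst hv
      have h1 : low F X p s := low_path F w hst (by unfold low; simp)
      have h2 := ed_of F w hs
      rcases h1 with rfl | rfl | rfl | rfl | rfl
      · cases h2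
        exact (hv (path_ce F w X p)).elim
      · cases h2
        exact (hv (path_ce F w X p)).elim
      · cases h2
        exact (hv Relation.ReflTransGen.refl).elim
      · cases h2
        exact (hv Relation.ReflTransGen.refl).elim
      · cases h2
        exact ⟨rfl, rfl⟩

theorem var_vs {s : Nd m (Bl F)} {i : Fin m} (h : gt F w s = Gate.var i) : i ∈ vs F s := by
  cases s with
  | a X p =>
    simp only [gt, Gate.var.injEq] at h
    simp [vs, h]
  | b X p =>
    simp only [gt, Gate.var.injEq] at h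
    simp [vs, h]
  | c X p => simp [gt] at h
  | d X p => simp [gt] at h
  | e X p => simp [gt] at h
  | f X p =>
    rw [gt] at h
    by_cases ha : Al F X.1 p
    · rw [dif_pos ha] at h
      simp at h
    · rw [dif_neg ha] at h
      simp at h
  | acc X t =>
    rw [gt] at h
    induction t using Fin.cases with
    | zero =>
      rw [Fin.cases_zero] at h
      simp at h
    | succ s =>
      rw [Fin.cases_succ] at h
      simp at h

theorem psyn : PSyn (pc F w) := by
  intro g a b hg i s t hs ht hsa htb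
  rcases mul_cases F w hg with ⟨X, p, rfl, rfl, rfl⟩ | ⟨X, p, Y, ha, hY, rfl, rfl, rfl⟩
  · have h1 := path_d F w hsa
    subst h1
    have h2 : gt F w (Nd.d X p) = Gate.var i := hs
    simp [gt] at h2
  · have h1 := vs_path F w hsa (var_vs F w hs)
    have h2 := vs_path F w htb (var_vs F w ht)
    simp only [vs, mem_insert, mem_singleton] at h1
    have h3 : i ∈ (X.1.erase p.1).erase p.2 := by
      rw [← hY]
      exact h2
    rw [mem_erase, mem_erase] at h3
    rcases h1 with rfl | rfl
    · exact h3.2.1 rfl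
    · exact h3.1 rfl

end circ

end Cir

open Cir in
theorem cir_thm : CIRStmt := by
  intro K _ n F w
  let o : (pc F w).V := Nd.acc ⟨univ, mem_insert_self _ _⟩ (Fin.last (2 * n * (2 * n)))
  refine ⟨(pc F w).prune o, Pre.prune_weaklySkew _ _ (weaklySkew F w), prune_syn _ _ (psyn F w),
    ?_, ?_⟩
  · have h1 := Pre.prune_computes (pc F w) o (vl F w) (isVal F w)
    have h2 : vl F w o = PP F w n univ := by
      simp only [o, vl]
      have h3 : ∑ s : Fin (2 * n * (2 * n)), (if s.1 < (Fin.last (2 * n * (2 * n))).1 then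
          term F w univ (en s) else 0) = ∑ s : Fin (2 * n * (2 * n)), term F w univ (en s) := by
        refine Finset.sum_congr rfl fun s _ => ?_
        rw [if_pos]
        rw [Fin.val_last]
        exact s.2
      rw [h3, acc_last, card_univ, Fintype.card_fin]
      congr 1
      omega
    rw [h2] at h1
    exact h1
  · refine (Pre.prune_size_le _ _).trans ?_
    have h1 : @Fintype.card (pc F w).V (pc F w).fin = Fintype.card (Nd (2 * n) (Bl F)) := rfl
    rw [h1]
    refine card_nd.trans ?_
    have h2 : Fintype.card (Bl F) ≤ F.card + 1 := by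
      have h3 : Fintype.card (Bl F) = (insert univ F).card := by simp
      rw [h3]
      exact card_insert_le _ _
    calc Fintype.card (Bl F) * (6 * (2 * n * (2 * n)) + (2 * n * (2 * n) + 1))
        ≤ (F.card + 1) * (6 * (2 * n * (2 * n)) + (2 * n * (2 * n) + 1)) :=
          Nat.mul_le_mul_right _ h2
      _ ≤ 8 * (F.card + 1) * (2 * n + 1) ^ 2 := by nlinarith [Nat.zero_le (F.card), Nat.zero_le n, Nat.zero_le (F.card * n), Nat.zero_le (F.card * n * n), Nat.zero_le (n * n)]

end Pool.Agent.H5.FR
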