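import Pool.Agent.H5.FR.Stmts

/-!
# Project FRK, module MLT: the polynomials are multilinear
-/

set_option autoImplicit false

open Finset

namespace Pool.Agent.H5.FR

open MvPolynomial

theorem mlt_thm : MLTStmt := by
  intro K _ V _ F w j
  induction j with
  | zero =>
    intro X i
    rw [PP]
    split_ifs with h1 h2
    · simp
    · simp
    · simp
    · simp
  | succ j ih =>
    intro X i
    rw [PP]
    refine (degreeOf_sum_le _ _ _).trans ?_
    rw [Finset.sup_le_iff]
    intro p hp
    rw [mem_filter, mem_product] at hp
    obtain ⟨⟨h1, h2⟩, h3, _⟩ := hp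
    have e1 : degreeOf i (C (w X p.1 p.2) : MvPolynomial V K) = 0 := degreeOf_C _ _
    have e2 : degreeOf i (MvPolynomial.X p.1 : MvPolynomial V K) ≤ if i = p.1 then 1 else 0 := by
      by_cases hK : Subsingleton K
      · have : (MvPolynomial.X p.1 : MvPolynomial V K) = 0 := Subsingleton.elim _ _
        rw [this]
        simp
      · rw [not_subsingleton_iff_nontrivial] at hK
        rw [degreeOf_X]
    have e3 : degreeOf i (MvPolynomial.X p.2 : MvPolynomial V K) ≤ if i = p.2 then 1 else 0 := by
      by_cases hK : Subsingleton K
      · have : (MvPolynomial.X p.2 : MvPolynomial V K) = 0 := Subsingleton.elim _ _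
        rw [this]
        simp
      · rw [not_subsingleton_iff_nontrivial] at hK
        rw [degreeOf_X]
    have e4 := ih ((X.erase p.1).erase p.2) i
    have e5 := degreeOf_mul_le i (C (w X p.1 p.2) * (MvPolynomial.X p.1 + MvPolynomial.X p.2))
      (PP F w j ((X.erase p.1).erase p.2))
    have e6 := degreeOf_mul_le i (C (w X p.1 p.2) : MvPolynomial V K)
      (MvPolynomial.X p.1 + MvPolynomial.X p.2)
    have e7 := degreeOf_add_le i (MvPolynomial.X p.1 : MvPolynomial V K) (MvPolynomial.X p.2)
    have e8 : (if i ∈ (X.erase p.1).erase p.2 then 1 else 0) +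
        max (if i = p.1 then 1 else 0) (if i = p.2 then 1 else 0) ≤
        (if i ∈ X then 1 else 0 : ℕ) := by
      by_cases a1 : i = p.1
      · have a4 : ¬ i ∈ (X.erase p.1).erase p.2 := by
          rw [mem_erase, mem_erase]
          exact fun h => h.2.1 a1
        have a5 : i ∈ X := by rw [a1]; exact h1
        rw [if_neg a4, if_pos a5]
        split_ifs <;> simp
      · by_cases a2 : i = p.2
        · have a4 : ¬ i ∈ (X.erase p.1).erase p.2 := by
            rw [mem_erase]
            exact fun h => h.1 a2
          have a5 : i ∈ X := by rw [a2]; exact h2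
          rw [if_neg a4, if_pos a5]
          split_ifs <;> simp
        · by_cases a3 : i ∈ X <;> simp [a1, a2, a3]
    have e9 : max (degreeOf i (MvPolynomial.X p.1 : MvPolynomial V K))
        (degreeOf i (MvPolynomial.X p.2 : MvPolynomial V K)) ≤
        max (if i = p.1 then 1 else 0) (if i = p.2 then 1 else 0) := max_le_max e2 e3
    omega

end Pool.Agent.H5.FR
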